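import Mathlib

/-!
# Strong surjectivity of linear orders is preserved when one point is deleted

Let `L` be a linear order that maps monotonically onto each of its nonempty suborders, and let
`x : L`. Then `L ∖ {x}` has the same property.

Sketch. Let `K ⊆ L ∖ {x}` be nonempty and assume that `L ∖ {x}` does not map onto `K`. Take a
monotone map `f` of `L` onto `K` and let `k = f x`. Then `x` is the only point mapped to `k`, so the
part of `L` below `x` does not map onto `K ∩ (-∞, k]` and the part above `x` does not map onto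
`K ∩ [k, ∞)`. If infinitely many points of `K` above `k` were at finite distance from `k`, then
shifting them down by one would give a map of the part above `x` onto `K ∩ [k, ∞)`. So only
finitely many points of `K` are at finite distance from `k`. Delete all these points (and `k`) from
`K` and map `L` onto what is left of `K`; if the image of `x` is above `k`, then only few points
below `x` have an image above `k`, hence there is a least point whose image is above `k`,
and its image is a point of `K` at finite distance from `k`, which was deleted.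
-/

set_option autoImplicit false

namespace Pool.Agent.Results.MP_6d87e8_lc.DeleteOnePoint

open Set

universe u

/-- A linear order `L` is strongly surjective if for every nonempty suborder `K` of `L` there is
a weakly order-preserving surjection from `L` onto `K`. -/
def StronglySurjective (L : Type u) [LinearOrder L] : Prop :=
  ∀ K : Set L, K.Nonempty → ∃ f : L → K, Monotone f ∧ Function.Surjective f

/-- A set with at least as many elements as the finite nonempty set `T` maps onto `T`. -/
theorem onto_finite {L : Type u} [LinearOrder L] (T : Finset L) : T.Nonempty → ∀ S : Set L,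
    (T.card : ℕ∞) ≤ S.encard → ∃ g : L → L, MonotoneOn g S ∧ g '' S = (T : Set L) := by
  induction T using Finset.induction_on_max with
  | empty => intro h; exact absurd h (by simp)
  | insert t T' hT' ih =>
    intro _ S hS
    have ht : t ∉ T' := fun h => lt_irrefl _ (hT' t h)
    rw [Finset.card_insert_of_notMem ht] at hS
    rcases T'.eq_empty_or_nonempty with rfl | hne
    · have hSne : S.Nonempty := by
        rw [← Set.encard_ne_zero]
        intro h0
        rw [h0] at hS
        simp at hS
      refine ⟨fun _ => t, fun _ _ _ _ _ => le_rfl, ?_⟩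
      rw [Set.Nonempty.image_const hSne]
      simp
    · obtain ⟨S0, hS0, hS0c⟩ := Set.exists_subset_encard_eq hS
      have hS0fin : S0.Finite := by
        apply Set.finite_of_encard_eq_coe hS0c
      have hS0ne : S0.Nonempty := by
        rw [← Set.encard_ne_zero, hS0c]
        simp
      obtain ⟨s, hs, hsmax⟩ := Set.exists_max_image S0 id hS0fin hS0ne
      have hcard : (T'.card : ℕ∞) ≤ (S ∩ Iio s).encard := by
        have h1 : S0 \ {s} ⊆ S ∩ Iio s := by
          rintro y ⟨hy, hys⟩
          exact ⟨hS0 hy, lt_of_le_of_ne (hsmax y hy) hys⟩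
        refine le_trans ?_ (Set.encard_le_encard h1)
        have h2 := Set.encard_sdiff_singleton_add_one hs
        rw [hS0c] at h2
        have h3 : ((T'.card + 1 : ℕ) : ℕ∞) = (T'.card : ℕ∞) + 1 := by push_cast; rfl
        rw [h3] at h2
        exact (ENat.add_left_injective_of_ne_top (n := 1) (by simp) h2).ge
      obtain ⟨g, hg, hgi⟩ := ih hne (S ∩ Iio s) hcard
      refine ⟨fun y => if y < s then g y else t, ?_, ?_⟩
      · intro a ha b hb hab
        by_cases h1 : b < s
        · have h2 : a < s := lt_of_le_of_lt hab h1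
          simp only [h1, h2, if_true]
          exact hg ⟨ha, h2⟩ ⟨hb, h1⟩ hab
        · by_cases h2 : a < s
          · simp only [h1, h2, if_true, if_false]
            have : g a ∈ (T' : Set L) := by
              rw [← hgi]
              exact ⟨a, ⟨ha, h2⟩, rfl⟩
            exact (hT' _ this).le
          · simp only [h1, h2, if_false]
            exact le_rfl
      · ext z
        constructor
        · rintro ⟨y, hy, rfl⟩
          by_cases h1 : y < s
          · simp only [h1, if_true]
            have : g y ∈ (T' : Set L) := by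
              rw [← hgi]
              exact ⟨y, ⟨hy, h1⟩, rfl⟩
            exact Finset.mem_coe.mpr (Finset.mem_insert_of_mem this)
          · simp only [h1, if_false]
            exact Finset.mem_coe.mpr (Finset.mem_insert_self _ _)
        · intro hz
          rcases Finset.mem_insert.mp (Finset.mem_coe.mp hz) with rfl | hz'
          · exact ⟨s, hS0 hs, by simp⟩
          · have : z ∈ g '' (S ∩ Iio s) := by
              rw [hgi]
              exact hz'
            obtain ⟨y, ⟨hy, hys⟩, rfl⟩ := this
            exact ⟨y, hy, by simp [mem_Iio.mp hys]⟩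

/-- If infinitely many points of `K` above `k` are at finite distance from `k`, then `K ∩ (k, ∞)`
maps onto `K ∩ [k, ∞)`. -/
theorem shift {L : Type u} [LinearOrder L] (K : Set L) (k : L) (hk : k ∈ K)
    (hR : {m | m ∈ K ∧ k < m ∧ (K ∩ Ioo k m).Finite}.Infinite) :
    ∃ s : L → L, MonotoneOn s (K ∩ Ioi k) ∧ s '' (K ∩ Ioi k) = K ∩ Ici k := by
  classical
  set R : Set L := {m | m ∈ K ∧ k < m ∧ (K ∩ Ioo k m).Finite} with hRdef
  have hfin : ∀ m ∈ R, (K ∩ Ico k m).Finite := by
    rintro m ⟨hm, hkm, hf⟩
    refine (hf.insert k).subset ?_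
    rintro y ⟨hy, hky, hym⟩
    rcases eq_or_lt_of_le hky with rfl | h
    · exact Or.inl rfl
    · exact Or.inr ⟨hy, h, hym⟩
  have hpred : ∀ m ∈ R, ∃ p, p ∈ K ∩ Ico k m ∧ ∀ y ∈ K ∩ Ico k m, y ≤ p := by
    intro m hm
    exact Set.exists_max_image (K ∩ Ico k m) id (hfin m hm) ⟨k, hk, le_rfl, hm.2.1⟩
  choose! p hp hpmax using hpred
  have hdown : ∀ m ∈ R, ∀ y ∈ K, k < y → y ≤ m → y ∈ R := by
    rintro m ⟨hm, hkm, hf⟩ y hy hky hym
    exact ⟨hy, hky, hf.subset (fun z hz => ⟨hz.1, hz.2.1, hz.2.2.trans_le hym⟩)⟩
  refine ⟨fun m => if m ∈ R then p m else m, ?_, ?_⟩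
  · intro a ha b hb hab
    by_cases hb' : b ∈ R
    · have ha' : a ∈ R := hdown b hb' a ha.1 ha.2 hab
      simp only [ha', hb', if_true]
      refine hpmax b hb' _ ⟨(hp a ha').1, (hp a ha').2.1, (hp a ha').2.2.trans_le hab⟩
    · by_cases ha' : a ∈ R
      · simp only [ha', hb', if_true, if_false]
        exact ((hp a ha').2.2.le).trans hab
      · simp only [ha', hb', if_false]
        exact hab
  · ext z
    constructor
    · rintro ⟨y, hy, rfl⟩
      by_cases hy' : y ∈ R
      · simp only [hy', if_true]
        exact ⟨(hp y hy').1, (hp y hy').2.1⟩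
      · simp only [hy', if_false]
        exact ⟨hy.1, le_of_lt hy.2⟩
    · rintro ⟨hz, hkz⟩
      by_cases hz' : z ∈ R ∨ z = k
      · -- find the successor of `z` in `K`
        have hex : ∃ r ∈ R, z < r := by
          by_contra hcon
          push Not at hcon
          apply hR
          have hzfin : (K ∩ Ioc k z).Finite := by
            rcases hz' with h | rfl
            · refine ((hfin z h).insert z).subset ?_
              rintro y ⟨hy, hky, hyz⟩
              rcases eq_or_lt_of_le hyz with rfl | h'
              · exact Or.inl rfl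
              · exact Or.inr ⟨hy, hky.le, h'⟩
            · simp
          exact hzfin.subset (fun r hr => ⟨hr.1, hr.2.1, hcon r hr⟩)
        obtain ⟨r, hr, hzr⟩ := hex
        have hfin2 : (K ∩ Ioc z r).Finite := by
          refine ((hfin r hr).insert r).subset ?_
          rintro y ⟨hy, hzy, hyr⟩
          rcases eq_or_lt_of_le hyr with rfl | h'
          · exact Or.inl rfl
          · exact Or.inr ⟨hy, (mem_Ici.mp hkz).trans hzy.le, h'⟩
        obtain ⟨q, hq, hqmin⟩ := Set.exists_min_image (K ∩ Ioc z r) id hfin2
          ⟨r, hr.1, hzr, le_rfl⟩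
        have hkq : k < q := lt_of_le_of_lt hkz hq.2.1
        have hqR : q ∈ R := hdown r hr q hq.1 hkq hq.2.2
        refine ⟨q, ⟨hq.1, hkq⟩, ?_⟩
        simp only [hqR, if_true]
        apply le_antisymm
        · by_contra hlt
          push Not at hlt
          have h1 := hp q hqR
          have h2 := hqmin (p q) ⟨h1.1, hlt, (h1.2.2.trans_le hq.2.2).le⟩
          exact absurd h2 (not_le.mpr h1.2.2)
        · exact hpmax q hqR z ⟨hz, hkz, hq.2.1⟩
      · push Not at hz'
        have hkz' : k < z := lt_of_le_of_ne hkz (Ne.symm hz'.2)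
        refine ⟨z, ⟨hz, hkz'⟩, ?_⟩
        simp only [hz'.1, if_false]

/-- One half of the last step of the proof. -/
theorem no_image_above {L : Type u} [LinearOrder L] {x k : L} {K : Set L}
    (hleft : ¬ ∃ g : L → L, MonotoneOn g (Iio x) ∧ g '' Iio x = K ∩ Iic k) (hk : k ∈ K)
    (hA : {m | m ∈ K ∧ m < k ∧ (K ∩ Ioo m k).Finite}.Finite)
    (hB : {m | m ∈ K ∧ k < m ∧ (K ∩ Ioo k m).Finite}.Finite)
    {h : L → L} (hmono : Monotone h)
    (hrange : range h = {m | m ∈ K ∧ m < k ∧ ¬ (K ∩ Ioo m k).Finite} ∪
      {m | m ∈ K ∧ k < m ∧ ¬ (K ∩ Ioo k m).Finite}) : ¬ k < h x := by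
  classical
  intro hx
  set A : Set L := {m | m ∈ K ∧ m < k ∧ (K ∩ Ioo m k).Finite} with hAdef
  have hmem : ∀ y, h y ∈ {m | m ∈ K ∧ m < k ∧ ¬ (K ∩ Ioo m k).Finite} ∪
      {m | m ∈ K ∧ k < m ∧ ¬ (K ∩ Ioo k m).Finite} := fun y => hrange ▸ mem_range_self y
  set S : Set L := {a | a < x ∧ k < h a} with hSdef
  have hkA : k ∉ A := fun h => lt_irrefl _ h.2.1
  by_cases hcard : ((insert k hA.toFinset).card : ℕ∞) ≤ S.encard
  · apply hleft
    obtain ⟨g, hg, hgi⟩ := onto_finite (insert k hA.toFinset) (Finset.insert_nonempty _ _) S hcard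
    have hgS : ∀ a ∈ S, g a = k ∨ g a ∈ A := by
      intro a ha
      have : g a ∈ ((insert k hA.toFinset : Finset L) : Set L) := by
        rw [← hgi]
        exact ⟨a, ha, rfl⟩
      simpa using this
    refine ⟨fun a => if k < h a then g a else h a, ?_, ?_⟩
    · intro a ha b hb hab
      by_cases hb' : k < h b
      · by_cases ha' : k < h a
        · simp only [ha', hb', if_true]
          exact hg ⟨ha, ha'⟩ ⟨hb, hb'⟩ hab
        · simp only [ha', hb', if_true, if_false]
          have h1 : h a ∈ K ∧ h a < k ∧ ¬ (K ∩ Ioo (h a) k).Finite := by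
            rcases hmem a with h1 | h1
            · exact h1
            · exact absurd h1.2.1 ha'
          rcases hgS b ⟨hb, hb'⟩ with h2 | h2
          · rw [h2]; exact h1.2.1.le
          · by_contra hlt
            push Not at hlt
            exact h1.2.2 (h2.2.2.subset (fun z hz => ⟨hz.1, hlt.trans hz.2.1, hz.2.2⟩))
      · have ha' : ¬ k < h a := fun h' => hb' (h'.trans_le (hmono hab))
        simp only [ha', hb', if_false]
        exact hmono hab
    · ext z
      constructor
      · rintro ⟨a, ha, rfl⟩
        by_cases ha' : k < h a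
        · simp only [ha', if_true]
          rcases hgS a ⟨ha, ha'⟩ with h2 | h2
          · rw [h2]; exact ⟨hk, le_rfl⟩
          · exact ⟨h2.1, h2.2.1.le⟩
        · simp only [ha', if_false]
          rcases hmem a with h1 | h1
          · exact ⟨h1.1, h1.2.1.le⟩
          · exact absurd h1.2.1 ha'
      · rintro ⟨hz, hzk⟩
        by_cases hz' : z = k ∨ z ∈ A
        · have : z ∈ g '' S := by
            rw [hgi]
            simpa using hz'
          obtain ⟨a, ha, rfl⟩ := this
          exact ⟨a, ha.1, by simp [ha.2]⟩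
        · push Not at hz'
          have hzk' : z < k := lt_of_le_of_ne hzk hz'.1
          have h1 : z ∈ range h := by
            rw [hrange]
            left
            refine ⟨hz, hzk', fun hf => hz'.2 ⟨hz, hzk', hf⟩⟩
          obtain ⟨a, rfl⟩ := h1
          have hax : a < x := by
            by_contra hcon
            push Not at hcon
            exact absurd ((hx.trans_le (hmono hcon)).trans hzk') (lt_irrefl _)
          exact ⟨a, hax, by simp [not_lt.mpr hzk'.le]⟩
  · -- `S` is finite
    push Not at hcard
    have hSfin : S.Finite := by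
      rw [← Set.encard_lt_top_iff]
      exact hcard.trans_le le_top
    obtain ⟨z, hz, hzmin⟩ := Set.exists_min_image (insert x S) id (hSfin.insert x)
      ⟨x, mem_insert _ _⟩
    have hzx : z ≤ x := by
      rcases hz with rfl | hz
      · exact le_rfl
      · exact hz.1.le
    have hkz : k < h z := by
      rcases hz with rfl | hz
      · exact hx
      · exact hz.2
    have hzK : h z ∈ K ∧ k < h z ∧ ¬ (K ∩ Ioo k (h z)).Finite := by
      rcases hmem z with h1 | h1
      · exact absurd (h1.2.1.trans hkz) (lt_irrefl _)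
      · exact h1
    apply hzK.2.2
    refine hB.subset ?_
    rintro m ⟨hm, hkm, hmz⟩
    by_contra hcon
    have h1 : m ∈ range h := by
      rw [hrange]
      right
      exact ⟨hm, hkm, fun hf => hcon ⟨hm, hkm, hf⟩⟩
    obtain ⟨w, rfl⟩ := h1
    have hwz : w < z := by
      by_contra hcon2
      push Not at hcon2
      exact absurd (hmz.trans_le (hmono hcon2)) (lt_irrefl _)
    have hwS : w ∈ S := ⟨hwz.trans_le hzx, hkm⟩
    exact absurd (hzmin w (Or.inr hwS)) (not_le.mpr hwz)

theorem main {L : Type u} [LinearOrder L]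
    (hL : ∀ K : Set L, K.Nonempty → ∃ f : L → L, Monotone f ∧ range f = K) (x : L)
    (K : Set L) (hK : K.Nonempty) (hxK : x ∉ K) :
    ∃ g : L → L, MonotoneOn g {x}ᶜ ∧ g '' {x}ᶜ = K := by
  classical
  by_contra hcon
  obtain ⟨f, hf, hfK⟩ := hL K hK
  set k := f x with hkdef
  have hk : k ∈ K := hfK ▸ mem_range_self x
  have hfmem : ∀ y, f y ∈ K := fun y => hfK ▸ mem_range_self y
  have huniq : ∀ y, y ≠ x → f y ≠ k := by
    intro y hy hyk
    apply hcon
    refine ⟨f, hf.monotoneOn _, ?_⟩
    apply Subset.antisymm
    · rintro _ ⟨z, -, rfl⟩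
      exact hfmem z
    · intro z hz
      rw [← hfK] at hz
      obtain ⟨w, rfl⟩ := hz
      by_cases hw : w = x
      · subst hw
        exact ⟨y, hy, hyk⟩
      · exact ⟨w, hw, rfl⟩
  have hlt : ∀ y, y < x → f y < k := fun y hy =>
    lt_of_le_of_ne (hf hy.le) (huniq y hy.ne)
  have hgt : ∀ y, x < y → k < f y := fun y hy =>
    lt_of_le_of_ne (hf hy.le) (Ne.symm (huniq y hy.ne'))
  -- the part below `x` does not map onto `K ∩ Iic k`
  have hleft : ¬ ∃ g : L → L, MonotoneOn g (Iio x) ∧ g '' Iio x = K ∩ Iic k := by
    rintro ⟨g, hg, hgi⟩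
    have hgm : ∀ y, y < x → g y ∈ K ∩ Iic k := fun y hy => hgi ▸ ⟨y, hy, rfl⟩
    apply hcon
    refine ⟨fun y => if y < x then g y else f y, ?_, ?_⟩
    · intro a ha b hb hab
      by_cases hb' : b < x
      · have ha' : a < x := lt_of_le_of_lt hab hb'
        simp only [ha', hb', if_true]
        exact hg ha' hb' hab
      · by_cases ha' : a < x
        · simp only [ha', hb', if_true, if_false]
          have hb'' : x < b := lt_of_le_of_ne (not_lt.mp hb') (Ne.symm hb)
          exact (mem_Iic.mp (hgm a ha').2).trans (hgt b hb'').le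
        · simp only [ha', hb', if_false]
          exact hf hab
    · apply Subset.antisymm
      · rintro _ ⟨y, hy, rfl⟩
        by_cases hy' : y < x
        · simp only [hy', if_true]
          exact (hgm y hy').1
        · simp only [hy', if_false]
          exact hfmem y
      · intro z hz
        rcases le_or_gt z k with h1 | h1
        · have : z ∈ g '' Iio x := by rw [hgi]; exact ⟨hz, h1⟩
          obtain ⟨y, hy, rfl⟩ := this
          exact ⟨y, ne_of_lt hy, by simp [mem_Iio.mp hy]⟩
        · rw [← hfK] at hz
          obtain ⟨y, rfl⟩ := hz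
          have hy : x < y := by
            by_contra hc
            push Not at hc
            exact absurd (h1.trans_le (hf hc)) (lt_irrefl _)
          exact ⟨y, ne_of_gt hy, by simp [not_lt.mpr hy.le]⟩
  have hright : ¬ ∃ g : L → L, MonotoneOn g (Ioi x) ∧ g '' Ioi x = K ∩ Ici k := by
    rintro ⟨g, hg, hgi⟩
    have hgm : ∀ y, x < y → g y ∈ K ∩ Ici k := fun y hy => hgi ▸ ⟨y, hy, rfl⟩
    apply hcon
    refine ⟨fun y => if x < y then g y else f y, ?_, ?_⟩
    · intro a ha b hb hab
      by_cases ha' : x < a
      · have hb' : x < b := lt_of_lt_of_le ha' hab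
        simp only [ha', hb', if_true]
        exact hg ha' hb' hab
      · by_cases hb' : x < b
        · simp only [ha', hb', if_true, if_false]
          have ha'' : a < x := lt_of_le_of_ne (not_lt.mp ha') ha
          exact (hlt a ha'').le.trans (mem_Ici.mp (hgm b hb').2)
        · simp only [ha', hb', if_false]
          exact hf hab
    · apply Subset.antisymm
      · rintro _ ⟨y, hy, rfl⟩
        by_cases hy' : x < y
        · simp only [hy', if_true]
          exact (hgm y hy').1
        · simp only [hy', if_false]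
          exact hfmem y
      · intro z hz
        rcases le_or_gt k z with h1 | h1
        · have : z ∈ g '' Ioi x := by rw [hgi]; exact ⟨hz, h1⟩
          obtain ⟨y, hy, rfl⟩ := this
          exact ⟨y, ne_of_gt hy, by simp [mem_Ioi.mp hy]⟩
        · rw [← hfK] at hz
          obtain ⟨y, rfl⟩ := hz
          have hy : y < x := by
            by_contra hc
            push Not at hc
            exact absurd (h1.trans_le (hf hc)) (lt_irrefl _)
          exact ⟨y, ne_of_lt hy, by simp [not_lt.mpr hy.le]⟩
  -- finitely many points at finite distance above `k`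
  have hB : {m | m ∈ K ∧ k < m ∧ (K ∩ Ioo k m).Finite}.Finite := by
    by_contra hinf
    obtain ⟨s, hs, hsi⟩ := shift K k hk hinf
    apply hright
    have him : f '' Ioi x = K ∩ Ioi k := by
      apply Subset.antisymm
      · rintro _ ⟨y, hy, rfl⟩
        exact ⟨hfmem y, hgt y hy⟩
      · rintro z ⟨hz, hkz⟩
        rw [← hfK] at hz
        obtain ⟨y, rfl⟩ := hz
        refine ⟨y, ?_, rfl⟩
        by_contra hc
        have hc' : y ≤ x := not_lt.mp hc
        exact absurd (lt_of_lt_of_le hkz (hf hc')) (lt_irrefl _)
    refine ⟨s ∘ f, ?_, ?_⟩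
    · intro a ha b hb hab
      exact hs ⟨hfmem a, hgt a ha⟩ ⟨hfmem b, hgt b hb⟩ (hf hab)
    · rw [image_comp, him, hsi]
  have hA : {m | m ∈ K ∧ m < k ∧ (K ∩ Ioo m k).Finite}.Finite := by
    by_contra hinf
    have hinf' : {m : Lᵒᵈ | m ∈ OrderDual.ofDual ⁻¹' K ∧ OrderDual.toDual k < m ∧
        ((OrderDual.ofDual ⁻¹' K) ∩ Ioo (OrderDual.toDual k) m).Finite}.Infinite := by
      intro hfin
      apply hinf
      refine hfin.subset ?_
      rintro m ⟨hm, hmk, hfi⟩
      refine ⟨hm, hmk, hfi.subset ?_⟩
      rintro z ⟨hz, h1, h2⟩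
      exact ⟨hz, h2, h1⟩
    obtain ⟨s, hs, hsi⟩ := shift (L := Lᵒᵈ) (OrderDual.ofDual ⁻¹' K) (OrderDual.toDual k) hk hinf'
    apply hleft
    have him : f '' Iio x = K ∩ Iio k := by
      apply Subset.antisymm
      · rintro _ ⟨y, hy, rfl⟩
        exact ⟨hfmem y, hlt y hy⟩
      · rintro z ⟨hz, hkz⟩
        rw [← hfK] at hz
        obtain ⟨y, rfl⟩ := hz
        refine ⟨y, ?_, rfl⟩
        by_contra hc
        have hc' : x ≤ y := not_lt.mp hc
        exact absurd (lt_of_lt_of_le hkz (hf hc')) (lt_irrefl _)
    refine ⟨fun y => OrderDual.ofDual (s (OrderDual.toDual (f y))), ?_, ?_⟩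
    · intro a ha b hb hab
      exact hs (a := OrderDual.toDual (f b)) ⟨hfmem b, hlt b hb⟩
        (b := OrderDual.toDual (f a)) ⟨hfmem a, hlt a ha⟩ (hf hab)
    · ext z
      constructor
      · rintro ⟨y, hy, rfl⟩
        have : s (OrderDual.toDual (f y)) ∈ s '' ((OrderDual.ofDual ⁻¹' K) ∩
            Ioi (OrderDual.toDual k)) := ⟨_, ⟨hfmem y, hlt y hy⟩, rfl⟩
        rw [hsi] at this
        exact this
      · intro hz
        have : OrderDual.toDual z ∈ (OrderDual.ofDual ⁻¹' K) ∩ Ici (OrderDual.toDual k) := hz
        rw [← hsi] at this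
        obtain ⟨w, ⟨hw, hwk⟩, hwz⟩ := this
        have hw2 : OrderDual.ofDual w ∈ f '' Iio x := by
          rw [him]
          exact ⟨hw, hwk⟩
        obtain ⟨y, hy, hyw⟩ := hw2
        refine ⟨y, hy, ?_⟩
        simp only [hyw, OrderDual.toDual_ofDual, hwz, OrderDual.ofDual_toDual]
  -- what is left of `K`
  set K0 : Set L := {m | m ∈ K ∧ m < k ∧ ¬ (K ∩ Ioo m k).Finite} ∪
      {m | m ∈ K ∧ k < m ∧ ¬ (K ∩ Ioo k m).Finite} with hK0
  rcases K0.eq_empty_or_nonempty with hemp | hne
  · -- `K` is finite
    have hKfin : K.Finite := by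
      refine ((hA.union hB).insert k).subset ?_
      intro m hm
      rcases lt_trichotomy m k with h | h | h
      · right; left
        refine ⟨hm, h, ?_⟩
        by_contra hc
        have : m ∈ K0 := Or.inl ⟨hm, h, hc⟩
        rw [hemp] at this
        exact this
      · left; exact h
      · right; right
        refine ⟨hm, h, ?_⟩
        by_contra hc
        have : m ∈ K0 := Or.inr ⟨hm, h, hc⟩
        rw [hemp] at this
        exact this
    apply hcon
    have hsub : K ⊆ {x}ᶜ := fun m hm hmx => hxK (by rw [← mem_singleton_iff.mp hmx]; exact hm)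
    have hcard : ((hKfin.toFinset).card : ℕ∞) ≤ ({x}ᶜ : Set L).encard := by
      rw [← Set.Finite.encard_eq_coe_toFinset_card hKfin]
      exact Set.encard_le_encard hsub
    obtain ⟨g, hg, hgi⟩ := onto_finite hKfin.toFinset (by simpa using hK) {x}ᶜ hcard
    exact ⟨g, hg, by rw [hgi]; simp⟩
  · obtain ⟨h, hh, hhr⟩ := hL K0 hne
    have hx1 : ¬ k < h x := no_image_above hleft hk hA hB hh hhr
    have hx2 : ¬ h x < k := by
      have := no_image_above (L := Lᵒᵈ) (x := OrderDual.toDual x) (k := OrderDual.toDual k)
        (K := OrderDual.ofDual ⁻¹' K)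
        (h := fun y => OrderDual.toDual (h (OrderDual.ofDual y))) ?_ hk ?_ ?_ ?_ ?_
      · exact this
      · rintro ⟨g, hg, hgi⟩
        apply hright
        refine ⟨fun y => OrderDual.ofDual (g (OrderDual.toDual y)), ?_, ?_⟩
        · intro a ha b hb hab
          exact hg (a := OrderDual.toDual b) hb (b := OrderDual.toDual a) ha hab
        · ext z
          constructor
          · rintro ⟨y, hy, rfl⟩
            have : g (OrderDual.toDual y) ∈ g '' Iio (OrderDual.toDual x) := ⟨_, hy, rfl⟩
            rw [hgi] at this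
            exact this
          · intro hz
            have : OrderDual.toDual z ∈ (OrderDual.ofDual ⁻¹' K) ∩ Iic (OrderDual.toDual k) := hz
            rw [← hgi] at this
            obtain ⟨w, hw, hwz⟩ := this
            exact ⟨OrderDual.ofDual w, hw, by
              simp only [OrderDual.toDual_ofDual, hwz, OrderDual.ofDual_toDual]⟩
      · refine hB.subset ?_
        rintro m ⟨hm, hmk, hfi⟩
        refine ⟨hm, hmk, hfi.subset ?_⟩
        rintro z ⟨hz, h1, h2⟩
        exact ⟨hz, h2, h1⟩
      · refine hA.subset ?_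
        rintro m ⟨hm, hmk, hfi⟩
        refine ⟨hm, hmk, hfi.subset ?_⟩
        rintro z ⟨hz, h1, h2⟩
        exact ⟨hz, h2, h1⟩
      · intro a b hab
        exact hh (a := OrderDual.ofDual b) (b := OrderDual.ofDual a) hab
      · ext z
        have key : ∀ m : L, (OrderDual.toDual m ∈ range fun y : Lᵒᵈ =>
            OrderDual.toDual (h (OrderDual.ofDual y))) ↔ m ∈ K0 := by
          intro m
          rw [← hhr]
          constructor
          · rintro ⟨y, hy⟩
            exact ⟨OrderDual.ofDual y, OrderDual.toDual_inj.mp hy⟩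
          · rintro ⟨y, hy⟩
            exact ⟨OrderDual.toDual y, by simp [hy]⟩
        have hz := key (OrderDual.ofDual z)
        rw [OrderDual.toDual_ofDual] at hz
        rw [hz]
        have hIoo : ∀ a b : L, ((OrderDual.ofDual ⁻¹' K) ∩
            Ioo (OrderDual.toDual b) (OrderDual.toDual a)).Finite ↔ (K ∩ Ioo a b).Finite := by
          intro a b
          constructor
          · intro hf2
            exact hf2.subset (fun w hw => ⟨hw.1, hw.2.2, hw.2.1⟩)
          · intro hf2
            exact hf2.subset (fun w hw => ⟨hw.1, hw.2.2, hw.2.1⟩)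
        constructor
        · rintro (⟨h1, h2, h3⟩ | ⟨h1, h2, h3⟩)
          · right
            exact ⟨h1, h2, fun hf2 => h3 ((hIoo _ _).mp hf2)⟩
          · left
            exact ⟨h1, h2, fun hf2 => h3 ((hIoo _ _).mp hf2)⟩
        · rintro (⟨h1, h2, h3⟩ | ⟨h1, h2, h3⟩)
          · right
            exact ⟨h1, h2, fun hf2 => h3 ((hIoo _ _).mpr hf2)⟩
          · left
            exact ⟨h1, h2, fun hf2 => h3 ((hIoo _ _).mpr hf2)⟩
    have hmem : h x ∈ K0 := hhr ▸ mem_range_self x
    rcases hmem with h1 | h1
    · exact hx2 h1.2.1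
    · exact hx1 h1.2.1

/-- If `L` is a strongly surjective linear order and `x` is a point of `L`, then the suborder
`L ∖ {x}` is strongly surjective. -/
theorem result {L : Type u} [LinearOrder L] (hL : StronglySurjective L) (x : L) :
    StronglySurjective {y : L // y ≠ x} := by
  classical
  have hL' : ∀ K : Set L, K.Nonempty → ∃ f : L → L, Monotone f ∧ range f = K := by
    intro K hK
    obtain ⟨f, hf, hfs⟩ := hL K hK
    refine ⟨fun y => (f y : L), fun a b hab => hf hab, ?_⟩
    apply Subset.antisymm
    · rintro _ ⟨y, rfl⟩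
      exact (f y).2
    · intro z hz
      obtain ⟨y, hy⟩ := hfs ⟨z, hz⟩
      exact ⟨y, by simp only [hy]⟩
  intro K hK
  have hxK : x ∉ (Subtype.val '' K : Set L) := by
    rintro ⟨y, -, hy⟩
    exact y.2 hy
  obtain ⟨g, hg, hgi⟩ := main hL' x (Subtype.val '' K) (hK.image _) hxK
  have hmem : ∀ y : {y : L // y ≠ x}, ∃ z : K, (z : {y : L // y ≠ x}).1 = g y.1 := by
    intro y
    have : g y.1 ∈ (Subtype.val '' K : Set L) := by
      rw [← hgi]
      exact ⟨y.1, y.2, rfl⟩
    obtain ⟨z, hz, hzy⟩ := this
    exact ⟨⟨z, hz⟩, hzy⟩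
  choose F hF using hmem
  refine ⟨F, ?_, ?_⟩
  · intro a b hab
    change (F a).1.1 ≤ (F b).1.1
    rw [hF a, hF b]
    exact hg a.2 b.2 hab
  · intro z
    have : (z.1.1 : L) ∈ g '' {x}ᶜ := by
      rw [hgi]
      exact ⟨z.1, z.2, rfl⟩
    obtain ⟨y, hy, hyz⟩ := this
    refine ⟨⟨y, hy⟩, ?_⟩
    apply Subtype.ext
    apply Subtype.ext
    rw [hF ⟨y, hy⟩]
    exact hyz

end Pool.Agent.Results.MP_6d87e8_lc.DeleteOnePoint
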